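import Pool.Agent.H82.SR.LinearZero
import Pool.Agent.H10.Sync.Automaton

/-!
# The divisor of an automaton which is not synchronizing

Let `δ` be an automaton with two letters for which only the constant functions `h` satisfy
`h (δ v 0) = h (δ v 1)` for all `v`. If `δ` is not synchronizing then there is `r ≥ 2` which divides
the total mass of every integral measure `lam` with `∑ v, lam v * (h (δ v 0) - h (δ v 1)) = 0` for
all `h`.
-/

namespace Pool.Agent.H98.SRO

open Finset
open Pool.Agent.H10.Sync Pool.Agent.H82.SR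

variable {n : ℕ}

/-- The indicator function of the set of states which the word `w` takes to `p`. -/
def ind (δ : Fin n → Fin 2 → Fin n) (w : List (Fin 2)) (p v : Fin n) : ℚ :=
  if run δ v w = p then 1 else 0

theorem exists_min (δ : Fin n → Fin 2 → Fin n) [Nonempty (Fin n)] (hn : ¬ IsSync δ) :
    ∃ (w0 : List (Fin 2)) (S : Finset (Fin n)), 2 ≤ S.card ∧
      (∀ v, run δ v w0 ∈ S) ∧
      ∀ w, ∀ p ∈ S, ∑ s ∈ S, ind δ (w ++ w0) p s = 1 := by
  classical
  set f : List (Fin 2) → ℕ := fun w => ((univ : Finset (Fin n)).image fun v => run δ v w).card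
    with hf
  have hdec : DecidablePred (fun m => ∃ w, f w = m) := Classical.decPred _
  have hex : ∃ m, ∃ w, f w = m := ⟨_, [], rfl⟩
  obtain ⟨w0, hw0⟩ := Nat.find_spec hex
  have hmin : ∀ w, f w0 ≤ f w := by
    intro w
    rw [hw0]
    exact Nat.find_min' hex ⟨w, rfl⟩
  set S : Finset (Fin n) := (univ : Finset (Fin n)).image fun v => run δ v w0 with hS
  have hmin' : ∀ w, S.card ≤ ((univ : Finset (Fin n)).image fun v => run δ v w).card := hmin
  have hcard : 1 < S.card := by
    by_contra hcon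
    have h1 : S.card ≤ 1 := not_lt.1 hcon
    rw [card_le_one] at h1
    apply hn
    refine ⟨w0, run δ (Classical.arbitrary (Fin n)) w0, fun q => ?_⟩
    exact h1 _ (mem_image_of_mem _ (mem_univ q)) _ (mem_image_of_mem _ (mem_univ _))
  refine ⟨w0, S, hcard, fun v => mem_image_of_mem (fun v => run δ v w0) (mem_univ v), ?_⟩
  intro w p hp
  -- the word `w ++ w0` maps `S` bijectively onto `S`
  have h1 : (S.image fun s => run δ s (w ++ w0)) =
      (univ : Finset (Fin n)).image fun v => run δ v (w0 ++ (w ++ w0)) := by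
    rw [hS, image_image]
    apply image_congr
    intro v _
    simp only [Function.comp_apply]
    rw [← run_append]
  have h2 : S.card ≤ (S.image fun s => run δ s (w ++ w0)).card := by
    rw [h1]
    exact hmin' _
  have hinj : Set.InjOn (fun s => run δ s (w ++ w0)) (S : Set (Fin n)) :=
    card_image_iff.1 (le_antisymm card_image_le h2)
  have himg : (S.image fun s => run δ s (w ++ w0)) = S := by
    apply eq_of_subset_of_card_le _ h2
    intro a ha
    rw [mem_image] at ha
    obtain ⟨v, _, rfl⟩ := ha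
    rw [run_append]
    exact mem_image_of_mem (fun v => run δ v w0) (mem_univ _)
  rw [← himg, mem_image] at hp
  obtain ⟨s, hs, hsp⟩ := hp
  rw [sum_eq_single s]
  · unfold ind
    rw [if_pos hsp]
  · intro t ht hts
    unfold ind
    rw [if_neg]
    intro htp
    exact hts (hinj (mem_coe.2 ht) (mem_coe.2 hs) (htp.trans hsp.symm))
  · intro h
    exact absurd hs h

theorem class_div (δ : Fin n → Fin 2 → Fin n) [Nonempty (Fin n)] (hn : ¬ IsSync δ)
    (hconn : ∀ h : Fin n → ℚ, (∀ v, h (δ v 0) = h (δ v 1)) → ∀ u v, h u = h v) :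
    ∃ r : ℕ, 2 ≤ r ∧ ∀ lam : Fin n → ℤ,
      (∀ h : Fin n → ℚ, ∑ v, (lam v : ℚ) * (h (δ v 0) - h (δ v 1)) = 0) →
      (r : ℤ) ∣ ∑ v, lam v := by
  classical
  obtain ⟨w0, S, hS2, hw0, hS⟩ := exists_min δ hn
  refine ⟨S.card, hS2, fun lam hlam => ?_⟩
  have hSne : S.Nonempty := card_pos.1 (by omega)
  -- the space of the difference functions
  let d : List (Fin 2) → S → S → (Fin n → ℚ) := fun w p q v =>
    ind δ (w ++ w0) p v - ind δ (w ++ w0) q v
  let W : Submodule ℚ (Fin n → ℚ) :=
    Submodule.span ℚ (Set.range fun x : List (Fin 2) × S × S => d x.1 x.2.1 x.2.2)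
  have hdW : ∀ w p q, d w p q ∈ W := fun w p q => Submodule.subset_span ⟨(w, p, q), rfl⟩
  let D : (Fin n → ℚ) →ₗ[ℚ] (Fin n → ℚ) :=
    { toFun := fun h v => h (δ v 0) - h (δ v 1)
      map_add' := by
        intro x y
        funext v
        simp only [Pi.add_apply]
        ring
      map_smul' := by
        intro a x
        funext v
        simp only [Pi.smul_apply, smul_eq_mul, RingHom.id_apply]
        ring }
  have hDd : ∀ w p q, D (d w p q) = d (0 :: w) p q - d (1 :: w) p q := by
    intro w p q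
    funext v
    rfl
  have hDW : ∀ h ∈ W, D h ∈ W := by
    intro h hh
    refine Submodule.span_induction (p := fun h _ => D h ∈ W) ?_ ?_ ?_ ?_ hh
    · rintro _ ⟨⟨w, p, q⟩, rfl⟩
      change D (d w p q) ∈ W
      rw [hDd]
      exact W.sub_mem (hdW _ _ _) (hdW _ _ _)
    · rw [map_zero]
      exact W.zero_mem
    · intro x y _ _ hx hy
      rw [map_add]
      exact W.add_mem hx hy
    · intro a x _ hx
      rw [map_smul]
      exact W.smul_mem _ hx
  -- the sum over `S`
  let F : (Fin n → ℚ) →ₗ[ℚ] ℚ := ∑ s ∈ S, LinearMap.proj s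
  have hF : ∀ h, F h = ∑ s ∈ S, h s := by
    intro h
    simp only [F, LinearMap.sum_apply, LinearMap.proj_apply]
  have hFW : ∀ h ∈ W, F h = 0 := by
    intro h hh
    have h2 : W ≤ LinearMap.ker F := by
      rw [Submodule.span_le]
      rintro _ ⟨⟨w, p, q⟩, rfl⟩
      rw [SetLike.mem_coe, LinearMap.mem_ker, hF]
      change ∑ s ∈ S, (ind δ (w ++ w0) p s - ind δ (w ++ w0) q s) = 0
      rw [sum_sub_distrib, hS w p p.2, hS w q q.2, sub_self]
    exact h2 hh
  let T : W →ₗ[ℚ] W := D.restrict hDW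
  have hTinj : Function.Injective T := by
    rw [← LinearMap.ker_eq_bot, LinearMap.ker_eq_bot']
    rintro ⟨h, hh⟩ hT
    have h1 : D h = 0 := congrArg Subtype.val hT
    have h3 := hconn h fun v => sub_eq_zero.1 (congrFun h1 v)
    obtain ⟨s, hs⟩ := hSne
    have h4 := hFW h hh
    rw [hF, sum_congr rfl (fun t _ => h3 t s), sum_const, nsmul_eq_mul, mul_eq_zero] at h4
    have h5 : h s = 0 := by
      rcases h4 with h4 | h4
      · exfalso
        have h7 : S.card = 0 := by exact_mod_cast h4
        omega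
      · exact h4
    apply Subtype.ext
    funext v
    change h v = 0
    rw [h3 v s, h5]
  let L : (Fin n → ℚ) →ₗ[ℚ] ℚ := ∑ v, (lam v : ℚ) • LinearMap.proj v
  have hL : ∀ h, L h = ∑ v, (lam v : ℚ) * h v := by
    intro h
    simp only [L, LinearMap.sum_apply, LinearMap.smul_apply, LinearMap.proj_apply, smul_eq_mul]
  have hLW : ∀ h ∈ W, L h = 0 := by
    intro h hh
    exact linear_zero T hTinj (L.comp W.subtype) (by
      rintro ⟨g, hg⟩
      change L (D g) = 0
      rw [hL]
      exact hlam g) ⟨h, hh⟩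
  -- the masses of the classes of `w0` are equal
  obtain ⟨p0, hp0⟩ := hSne
  let m : Fin n → ℤ := fun p => ∑ v, if run δ v w0 = p then lam v else 0
  have hm : ∀ p ∈ S, m p = m p0 := by
    intro p hp
    have h1 := hLW _ (hdW [] ⟨p, hp⟩ ⟨p0, hp0⟩)
    rw [hL] at h1
    have h2 : ∀ q, ((m q : ℤ) : ℚ) = ∑ v, (lam v : ℚ) * ind δ w0 q v := by
      intro q
      simp only [m, Int.cast_sum, ind, mul_ite, mul_one, mul_zero]
      refine sum_congr rfl fun v _ => ?_
      split_ifs <;> simp
    have h3 : ((m p : ℤ) : ℚ) - ((m p0 : ℤ) : ℚ) = 0 := by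
      rw [h2, h2, ← sum_sub_distrib, ← h1]
      refine sum_congr rfl fun v _ => ?_
      change (lam v : ℚ) * ind δ w0 p v - (lam v : ℚ) * ind δ w0 p0 v =
        (lam v : ℚ) * (ind δ w0 p v - ind δ w0 p0 v)
      ring
    exact_mod_cast sub_eq_zero.1 h3
  refine ⟨m p0, ?_⟩
  have h4 : ∑ v, lam v = ∑ p ∈ S, m p := by
    simp only [m]
    rw [sum_comm]
    refine sum_congr rfl fun v _ => ?_
    rw [sum_ite_eq, if_pos (hw0 v)]
  rw [h4, sum_congr rfl hm, sum_const, nsmul_eq_mul]

end Pool.Agent.H98.SRO
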