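import Pool.Agent.H98.SRO.Signs

/-!
# Counting the colorings with signed sum `1` or `-1`
-/

namespace Pool.Agent.H98.SRO

open Finset
open Pool.Agent.H10.Sync Pool.Agent.H82.SR

variable {n : ℕ}

open Classical in
/-- The coloring with all signs equal to the directions of the trail. -/
noncomputable def base (G : OutRegular n 2) (l : ℕ) (v p : ℕ → Fin n) : Coloring n 2 :=
  fun u => if ∃ i < l, v i = u ∧ dir G v p i = 1 then 1 else Equiv.swap 0 1

/-- Change the colors at the vertices of `B`. -/
noncomputable def flip (c : Coloring n 2) (B : Finset (Fin n)) : Coloring n 2 :=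
  fun u => if u ∈ B then c u * Equiv.swap 0 1 else c u

theorem swap_ne : (Equiv.swap (0 : Fin 2) 1) ≠ 1 := by decide

theorem sgn_base (G : OutRegular n 2) {l : ℕ} {v p : ℕ → Fin n} (ht : OutPairTrail G l v p)
    {i : ℕ} (hi : i < l) : sgn (base G l v p) (v i) = dir G v p i := by
  rcases dir_sq G v p i with h | h
  · have h1 : base G l v p (v i) = 1 := if_pos ⟨i, hi, rfl, h⟩
    unfold sgn
    rw [h1, if_pos rfl, h]
  · have h1 : base G l v p (v i) = Equiv.swap 0 1 := by
      apply if_neg
      rintro ⟨j, hj, hji, hd⟩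
      have h1 := ht.2.1 j hj i hi hji
      subst h1
      rw [h] at hd
      norm_num at hd
    unfold sgn
    rw [h1, if_neg swap_ne, h]

theorem sgn_flip (c : Coloring n 2) (B : Finset (Fin n)) (u : Fin n) :
    sgn (flip c B) u = if u ∈ B then - sgn c u else sgn c u := by
  unfold sgn flip
  split_ifs with h1 h2 h3 h4
  · rw [h3, one_mul] at h2
    exact absurd h2 swap_ne
  · simp
  · rfl
  · exfalso
    rcases perm_two (c u) with h5 | h5
    · exact h4 h5
    · apply h2
      rw [h5]
      decide
  · rfl
  · rfl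

theorem flip_injective (c : Coloring n 2) : Function.Injective (flip c) := by
  intro B B' h
  ext u
  have h1 := congrFun h u
  unfold flip at h1
  split_ifs at h1 with h2 h3 h4
  · simp [h2, h3]
  · exfalso
    apply swap_ne
    calc Equiv.swap (0 : Fin 2) 1 = (c u)⁻¹ * (c u * Equiv.swap 0 1) := by group
      _ = 1 := by rw [h1]; group
  · exfalso
    apply swap_ne
    calc Equiv.swap (0 : Fin 2) 1 = (c u)⁻¹ * (c u * Equiv.swap 0 1) := by group
      _ = 1 := by rw [← h1]; group
  · simp [h2, h4]

theorem sig_flip (G : OutRegular n 2) {l : ℕ} {v p : ℕ → Fin n} (ht : OutPairTrail G l v p)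
    (B : Finset (Fin n)) :
    sig G l v p (flip (base G l v p) B) = l - 2 * ((range l).filter fun i => v i ∈ B).card := by
  unfold sig
  have h1 : ∀ i ∈ range l, dir G v p i * sgn (flip (base G l v p) B) (v i) =
      1 - 2 * (if v i ∈ B then 1 else 0) := by
    intro i hi
    rw [sgn_flip, sgn_base G ht (mem_range.1 hi)]
    have h2 : dir G v p i * dir G v p i = 1 := by
      rcases dir_sq G v p i with h | h <;> rw [h] <;> norm_num
    split_ifs
    · rw [mul_neg, h2]
      norm_num
    · rw [h2]
      norm_num
  rw [sum_congr rfl h1, sum_sub_distrib, ← mul_sum, sum_boole]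
  simp

theorem card_sync_ge {G : OutRegular n 2} [Nonempty (Fin n)] (hG : OutPairConnected G)
    {m : ℕ} {v p : ℕ → Fin n} (ht : OutPairTrail G (2 * m + 1) v p)
    (S : Finset (Coloring n 2)) (hS : ∀ c, Synchronizing G c → c ∈ S) :
    2 * (2 * m + 1).choose m * 2 ^ (n - (2 * m + 1)) ≤ S.card ∧ 2 * m + 1 ≤ n := by
  classical
  set l := 2 * m + 1 with hl
  set T : Finset (Fin n) := (range l).image v with hT
  have hinj : Set.InjOn v (range l : Set ℕ) := by
    intro i hi j hj hij
    exact ht.2.1 i (mem_range.1 (mem_coe.1 hi)) j (mem_range.1 (mem_coe.1 hj)) hij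
  have hTc : T.card = l := by
    rw [hT, card_image_of_injOn hinj, card_range]
  have hln : l ≤ n := by
    rw [← hTc]
    calc T.card ≤ (univ : Finset (Fin n)).card := card_le_card (subset_univ _)
      _ = n := by rw [card_univ, Fintype.card_fin]
  refine ⟨?_, hln⟩
  -- the pairs of sets
  set P : Finset (Finset (Fin n) × Finset (Fin n)) :=
    (powersetCard m T ∪ powersetCard (m + 1) T) ×ˢ (univ \ T).powerset with hP
  have hdisj : Disjoint (powersetCard m T) (powersetCard (m + 1) T) := by
    rw [disjoint_left]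
    intro B h1 h2
    rw [mem_powersetCard] at h1 h2
    omega
  have hPc : P.card = 2 * l.choose m * 2 ^ (n - l) := by
    rw [hP, card_product, card_union_of_disjoint hdisj, card_powersetCard, card_powersetCard,
      card_powerset, card_sdiff_of_subset (subset_univ _), card_univ, Fintype.card_fin, hTc]
    have h1 : l.choose (m + 1) = l.choose m := by
      rw [← Nat.choose_symm_of_eq_add (show l = m + (m + 1) by omega)]
    rw [h1]
    ring
  rw [← hPc]
  have hBT : ∀ x ∈ P, x.1 ⊆ T ∧ (x.1.card = m ∨ x.1.card = m + 1) ∧ Disjoint x.2 T := by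
    rintro ⟨B1, B2⟩ hx
    rw [hP, mem_product, mem_union, mem_powersetCard, mem_powersetCard, mem_powerset] at hx
    obtain ⟨h1, h2⟩ := hx
    refine ⟨?_, ?_, ?_⟩
    · rcases h1 with h1 | h1
      · exact h1.1
      · exact h1.1
    · rcases h1 with h1 | h1
      · exact Or.inl h1.2
      · exact Or.inr h1.2
    · rw [disjoint_left]
      intro a ha haT
      exact (mem_sdiff.1 (h2 ha)).2 haT
  apply card_le_card_of_injOn (fun x => flip (base G l v p) (x.1 ∪ x.2))
  · intro x hx
    obtain ⟨h1, h2, h3⟩ := hBT x hx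
    apply hS
    apply sync_of_sig hG ht
    rw [sig_flip G ht]
    have h4 : ((range l).filter fun i => v i ∈ x.1 ∪ x.2).card = x.1.card := by
      have h5 : ((range l).filter fun i => v i ∈ x.1 ∪ x.2).image v = x.1 := by
        ext a
        rw [mem_image]
        constructor
        · rintro ⟨i, hi, rfl⟩
          rw [mem_filter, mem_union] at hi
          rcases hi.2 with h6 | h6
          · exact h6
          · exfalso
            exact (disjoint_left.1 h3) h6 (mem_image_of_mem v hi.1)
        · intro ha
          have h6 := h1 ha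
          rw [hT, mem_image] at h6
          obtain ⟨i, hi, rfl⟩ := h6
          exact ⟨i, mem_filter.2 ⟨hi, mem_union_left _ ha⟩, rfl⟩
      conv_rhs => rw [← h5]
      rw [card_image_of_injOn]
      intro i hi j hj hij
      exact hinj (mem_coe.2 (mem_filter.1 (mem_coe.1 hi)).1)
        (mem_coe.2 (mem_filter.1 (mem_coe.1 hj)).1) hij
    rw [h4]
    rcases h2 with h2 | h2
    · left
      rw [h2, hl]
      push_cast
      ring
    · right
      rw [h2, hl]
      push_cast
      ring
  · intro x hx y hy hxy
    have h1 := flip_injective _ hxy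
    obtain ⟨hx1, -, hx3⟩ := hBT x hx
    obtain ⟨hy1, -, hy3⟩ := hBT y hy
    have h2 : ∀ z : Finset (Fin n) × Finset (Fin n), z.1 ⊆ T → Disjoint z.2 T →
        (z.1 ∪ z.2) ∩ T = z.1 ∧ (z.1 ∪ z.2) \ T = z.2 := by
      intro z hz1 hz2
      constructor
      · rw [union_inter_distrib_right, inter_eq_left.2 hz1, disjoint_iff_inter_eq_empty.1 hz2,
          union_empty]
      · rw [union_sdiff_distrib, sdiff_eq_empty_iff_subset.2 hz1, empty_union,
          sdiff_eq_self_of_disjoint hz2]
    obtain ⟨h3, h4⟩ := h2 x hx1 hx3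
    obtain ⟨h5, h6⟩ := h2 y hy1 hy3
    apply Prod.ext
    · rw [← h3, ← h5, h1]
    · rw [← h4, ← h6, h1]

end Pool.Agent.H98.SRO
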