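import Pool.Agent.H98.SRO.Count
import Pool.Agent.H82.SR.Main

/-!
# The synchronizing ratio of digraphs with connected out-pairs
-/

namespace Pool.Agent.H98.SRO

open Finset
open Pool.Agent.H10.Sync Pool.Agent.H82.SR

variable {n : ℕ}

theorem sig_odd (G : OutRegular n 2) (m : ℕ) (v p : ℕ → Fin n) (c : Coloring n 2) :
    Odd (sig G (2 * m + 1) v p c) := by
  have h1 : ∀ l, Even (sig G l v p c - l) := by
    intro l
    induction l with
    | zero => simp [sig]
    | succ l ih =>
      have h2 : sig G (l + 1) v p c - ((l + 1 : ℕ) : ℤ) =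
          (sig G l v p c - l) + (dir G v p l * sgn c (v l) - 1) := by
        unfold sig
        rw [sum_range_succ]
        push_cast
        ring
      rw [h2]
      apply ih.add
      rcases dir_sq G v p l with h3 | h3 <;> rcases sgn_sq c (v l) with h4 | h4 <;>
        rw [h3, h4] <;> decide
  have h2 := h1 (2 * m + 1)
  have h3 : sig G (2 * m + 1) v p c =
      (sig G (2 * m + 1) v p c - ((2 * m + 1 : ℕ) : ℤ)) + (2 * (m : ℤ) + 1) := by
    push_cast
    ring
  rw [h3]
  exact h2.add_odd ⟨m, rfl⟩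

theorem odd_dvd {G : OutRegular n 2} [Nonempty (Fin n)] (hG : OutPairConnected G)
    {m : ℕ} {v p : ℕ → Fin n} (ht : OutPairTrail G (2 * m + 1) v p) {c : Coloring n 2}
    (hc : ¬ Synchronizing G c) :
    ∃ r : ℕ, Odd r ∧ 3 ≤ r ∧ (r : ℤ) ∣ sig G (2 * m + 1) v p c := by
  obtain ⟨r, hr, hd⟩ := dvd_sig hG hc
  have h1 := hd _ v p ht
  have h2 : Odd r := by
    rw [← Nat.not_even_iff_odd]
    intro h3
    obtain ⟨s, hs⟩ := h3
    have h4 : (2 : ℤ) ∣ sig G (2 * m + 1) v p c := by
      refine dvd_trans ⟨(s : ℤ), ?_⟩ h1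
      rw [hs]
      push_cast
      ring
    have h5 := sig_odd G m v p c
    rw [← Int.not_even_iff_odd] at h5
    exact h5 (even_iff_two_dvd.2 h4)
  refine ⟨r, h2, ?_, h1⟩
  rcases h2 with ⟨s, hs⟩
  omega

theorem ratio_ge {G : OutRegular n 2} [Nonempty (Fin n)] (hG : OutPairConnected G)
    {m : ℕ} {v p : ℕ → Fin n} (ht : OutPairTrail G (2 * m + 1) v p) :
    ((2 * m + 1).choose m : ℝ) / 4 ^ m ≤ syncRatio G := by
  classical
  obtain ⟨h1, h2⟩ := card_sync_ge hG ht
    ((univ : Finset (Coloring n 2)).filter fun c => Synchronizing G c)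
    (fun c hc => mem_filter.2 ⟨mem_univ c, hc⟩)
  unfold syncRatio
  have h3 : (2 : ℝ) ^ n = 2 * 4 ^ m * 2 ^ (n - (2 * m + 1)) := by
    have h4 : n = (n - (2 * m + 1)) + 2 * m + 1 := by omega
    conv_lhs => rw [h4]
    rw [pow_succ, pow_add, pow_mul]
    norm_num
    ring
  have h5 : ((Nat.factorial 2 : ℕ) : ℝ) = 2 := by
    rw [Nat.factorial_two]
    norm_num
  rw [h5, div_le_div_iff₀ (by positivity) (by positivity), h3]
  have h6 : (2 * ((2 * m + 1).choose m : ℝ) * 2 ^ (n - (2 * m + 1))) ≤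
      (((univ : Finset (Coloring n 2)).filter fun c => Synchronizing G c).card : ℝ) := by
    exact_mod_cast h1
  calc ((2 * m + 1).choose m : ℝ) * (2 * 4 ^ m * 2 ^ (n - (2 * m + 1)))
      = (2 * ((2 * m + 1).choose m : ℝ) * 2 ^ (n - (2 * m + 1))) * 4 ^ m := by ring
    _ ≤ _ := by
      refine mul_le_mul_of_nonneg_right ?_ (by positivity)
      convert h6

theorem ratio_le (G : OutRegular n 2) : syncRatio G ≤ 1 := by
  classical
  unfold syncRatio
  rw [div_le_one (by positivity), ← card_coloring, ← card_univ]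
  exact_mod_cast card_le_card (filter_subset _ _)

end Pool.Agent.H98.SRO
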