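import Pool.Agent.H98.SRO.ClassDiv
import Pool.Agent.H10.Sync.Graph

/-!
# Out-pairs of a digraph with two edges at every vertex

The signed sum of a coloring along a closed trail of the graph of out-pairs; a coloring with signed
sum `1` or `-1` is synchronizing if the graph of out-pairs is connected.
-/

namespace Pool.Agent.H98.SRO

open Finset
open Pool.Agent.H10.Sync Pool.Agent.H82.SR

variable {n : ℕ}

/-- The graph of out-pairs, on the vertex set of `G`, has an edge joining `G v 0` and `G v 1` for
every vertex `v`. It is connected if every two vertices are joined by a walk of such edges. -/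
def OutPairConnected (G : OutRegular n 2) : Prop :=
  ∀ x y, Relation.EqvGen (fun x y => ∃ v, G v 0 = x ∧ G v 1 = y) x y

/-- `OutPairTrail G l v p`: a closed walk of length `l` with distinct edges in the graph of
out-pairs. It passes through `p 0, p 1, …, p l = p 0`, and its `i`-th edge, from `p i` to `p (i + 1)`,
is the out-pair of the vertex `v i`. -/
def OutPairTrail (G : OutRegular n 2) (l : ℕ) (v p : ℕ → Fin n) : Prop :=
  p l = p 0 ∧ (∀ i < l, ∀ j < l, v i = v j → i = j) ∧
    ∀ i < l, (G (v i) 0 = p i ∧ G (v i) 1 = p (i + 1)) ∨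
      (G (v i) 1 = p i ∧ G (v i) 0 = p (i + 1))

/-- The sign of a coloring at `v`: `1` if the edge `0` of `v` has color `0`. -/
def sgn (c : Coloring n 2) (v : Fin n) : ℤ := if c v = 1 then 1 else -1

open Classical in
/-- The direction in which the trail passes its `i`-th edge. -/
noncomputable def dir (G : OutRegular n 2) (v p : ℕ → Fin n) (i : ℕ) : ℤ :=
  if G (v i) 0 = p i ∧ G (v i) 1 = p (i + 1) then 1 else -1

/-- The signed sum of a coloring along the trail. -/
noncomputable def sig (G : OutRegular n 2) (l : ℕ) (v p : ℕ → Fin n) (c : Coloring n 2) : ℤ :=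
  ∑ i ∈ range l, dir G v p i * sgn c (v i)

theorem perm_two (σ : Equiv.Perm (Fin 2)) : σ = 1 ∨ σ = Equiv.swap 0 1 := by
  revert σ
  decide

theorem step_diff (G : OutRegular n 2) (c : Coloring n 2) (v : Fin n) (h : Fin n → ℚ) :
    h (step G c v 0) - h (step G c v 1) = (sgn c v : ℚ) * (h (G v 0) - h (G v 1)) := by
  unfold step sgn
  rcases perm_two (c v) with h1 | h1
  · rw [h1, if_pos rfl]
    change h (G v 0) - h (G v 1) = _
    push_cast
    rw [one_mul]
  · have h2 : (Equiv.swap (0 : Fin 2) 1) ≠ 1 := by decide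
    rw [h1, if_neg h2, Equiv.symm_swap, Equiv.swap_apply_left, Equiv.swap_apply_right]
    push_cast
    ring

theorem sgn_sq (c : Coloring n 2) (v : Fin n) : sgn c v = 1 ∨ sgn c v = -1 := by
  unfold sgn
  split_ifs <;> simp

theorem dir_sq (G : OutRegular n 2) (v p : ℕ → Fin n) (i : ℕ) :
    dir G v p i = 1 ∨ dir G v p i = -1 := by
  unfold dir
  split_ifs <;> simp

theorem conn_const {G : OutRegular n 2} (hG : OutPairConnected G) (c : Coloring n 2)
    (h : Fin n → ℚ) (hh : ∀ v, h (step G c v 0) = h (step G c v 1)) (x y : Fin n) :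
    h x = h y := by
  have h1 : ∀ v, h (G v 0) = h (G v 1) := by
    intro v
    have h2 := step_diff G c v h
    rw [hh v, sub_self] at h2
    rcases mul_eq_zero.1 h2.symm with h3 | h3
    · exfalso
      rcases sgn_sq c v with h4 | h4 <;> rw [h4] at h3 <;> norm_num at h3
    · exact sub_eq_zero.1 h3
  have h2 := hG x y
  induction h2 with
  | rel x y h3 =>
    obtain ⟨v, rfl, rfl⟩ := h3
    exact h1 v
  | refl x => rfl
  | symm x y _ ih => exact ih.symm
  | trans x y z _ _ ih1 ih2 => exact ih1.trans ih2

/-- **The divisor of a coloring which is not synchronizing.** -/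
theorem dvd_sig {G : OutRegular n 2} [Nonempty (Fin n)] (hG : OutPairConnected G)
    {c : Coloring n 2} (hc : ¬ Synchronizing G c) :
    ∃ r : ℕ, 2 ≤ r ∧ ∀ l v p, OutPairTrail G l v p → (r : ℤ) ∣ sig G l v p c := by
  classical
  obtain ⟨r, hr, hd⟩ := class_div (step G c) hc (conn_const hG c)
  refine ⟨r, hr, fun l v p ht => ?_⟩
  obtain ⟨hp, hv, hedge⟩ := ht
  let lam : Fin n → ℤ := fun u => ∑ i ∈ range l, if v i = u then dir G v p i * sgn c u else 0
  have h1 : ∑ u, lam u = sig G l v p c := by
    simp only [lam, sig]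
    rw [sum_comm]
    refine sum_congr rfl fun i _ => ?_
    rw [sum_ite_eq, if_pos (mem_univ _)]
  rw [← h1]
  apply hd
  intro h
  have h2 : ∀ u, (lam u : ℚ) * (h (step G c u 0) - h (step G c u 1)) =
      ∑ i ∈ range l, if v i = u then (dir G v p i : ℚ) * (h (G (v i) 0) - h (G (v i) 1)) else 0 := by
    intro u
    rw [step_diff]
    simp only [lam, Int.cast_sum]
    rw [sum_mul]
    refine sum_congr rfl fun i _ => ?_
    split_ifs with h3
    · subst h3
      have h4 : ((sgn c (v i) : ℤ) : ℚ) * (sgn c (v i) : ℤ) = 1 := by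
        rcases sgn_sq c (v i) with h5 | h5 <;> rw [h5] <;> norm_num
      push_cast
      calc (dir G v p i : ℚ) * (sgn c (v i) : ℚ) *
            ((sgn c (v i) : ℚ) * (h (G (v i) 0) - h (G (v i) 1)))
          = (dir G v p i : ℚ) * (((sgn c (v i) : ℤ) : ℚ) * (sgn c (v i) : ℤ)) *
            (h (G (v i) 0) - h (G (v i) 1)) := by ring
        _ = _ := by rw [h4, mul_one]
    · simp
  rw [sum_congr rfl fun u _ => h2 u, sum_comm]
  have h3 : ∀ i ∈ range l, (∑ u, if v i = u then
      (dir G v p i : ℚ) * (h (G (v i) 0) - h (G (v i) 1)) else 0) = h (p i) - h (p (i + 1)) := by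
    intro i hi
    rw [sum_ite_eq, if_pos (mem_univ _)]
    unfold dir
    split_ifs with h4
    · rw [h4.1, h4.2]
      norm_num
    · rcases hedge i (mem_range.1 hi) with h5 | h5
      · exact absurd h5 h4
      · rw [h5.1, h5.2]
        push_cast
        ring
  rw [sum_congr rfl h3, sum_range_sub', hp, sub_self]

theorem sync_of_sig {G : OutRegular n 2} [Nonempty (Fin n)] (hG : OutPairConnected G)
    {c : Coloring n 2} {l : ℕ} {v p : ℕ → Fin n} (ht : OutPairTrail G l v p)
    (h : sig G l v p c = 1 ∨ sig G l v p c = -1) : Synchronizing G c := by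
  by_contra hc
  obtain ⟨r, hr, hd⟩ := dvd_sig hG hc
  have h1 : (r : ℤ) ∣ 1 := by
    rcases h with h | h
    · rw [← h]
      exact hd l v p ht
    · have h2 := hd l v p ht
      rw [h] at h2
      exact (dvd_neg.1 h2)
  have h2 : (r : ℤ) ≤ 1 := Int.le_of_dvd one_pos h1
  omega

end Pool.Agent.H98.SRO
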